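import Pool.Agent.H.MP_554556_an.D

set_option autoImplicit false
set_option linter.unusedSectionVars false

namespace Pool.Agent.H.MP_554556_an
open Matrix Quaternion Finset NormedSpace

section Gen
variable {ι κ : Type} [Fintype ι] [DecidableEq ι] [Fintype κ]

noncomputable def rm (v : ι → ℍ) (z : ℍ) : ι → ℍ := fun i => v i * z

lemma mulVec_rm (C : Matrix κ ι ℍ) (v : ι → ℍ) (z : ℍ) :
    C *ᵥ rm v z = fun i => (C *ᵥ v) i * z := by
  ext1 i
  simp only [mulVec, dotProduct, rm, sum_mul, mul_assoc]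

lemma mulVec_rm' (C : Matrix ι ι ℍ) (v : ι → ℍ) (z : ℍ) : C *ᵥ rm v z = rm (C *ᵥ v) z :=
  mulVec_rm C v z

lemma rm_rm (v : ι → ℍ) (a b : ℍ) : rm (rm v a) b = rm v (a * b) := by
  ext1 i; simp only [rm, mul_assoc]

lemma rm_one (v : ι → ℍ) : rm v 1 = v := by ext1 i; simp [rm]

lemma rm_ne {v : ι → ℍ} {a : ℍ} (hv : v ≠ 0) (ha : a ≠ 0) : rm v a ≠ 0 := by
  intro h
  apply hv
  ext1 i
  have := congrFun h i
  simpa [rm, ha] using this

lemma pow_eig {C : Matrix ι ι ℍ} {v : ι → ℍ} {z : ℍ} (h : C *ᵥ v = rm v z) (k : ℕ) :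
    (C ^ k) *ᵥ v = rm v (z ^ k) := by
  induction k with
  | zero => simp [rm_one]
  | succ k ih => rw [pow_succ, ← mulVec_mulVec, h, mulVec_rm', ih, rm_rm, pow_succ]

noncomputable def L (C : Matrix ι ι ℍ) (z : ℍ) (v : ι → ℍ) : ι → ℍ := C *ᵥ v - rm v z

lemma L_L (C : Matrix ι ι ℍ) (a b : ℍ) (v : ι → ℍ) :
    L C a (L C b v) = C *ᵥ (C *ᵥ v) - rm (C *ᵥ v) (a + b) + rm v (b * a) := by
  unfold L
  rw [mulVec_sub, mulVec_rm']
  ext1 i
  simp only [rm, Pi.sub_apply, Pi.add_apply]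
  noncomm_ring

lemma L_comm (C : Matrix ι ι ℍ) {a b : ℍ} (h : a * b = b * a) (v : ι → ℍ) :
    L C a (L C b v) = L C b (L C a v) := by rw [L_L, L_L, h, add_comm a b]

noncomputable def bf (K : Matrix ι ι ℍ) (u v : ι → ℍ) : ℍ := star u ⬝ᵥ K *ᵥ v

lemma bf_eq (K : Matrix ι ι ℍ) (u v : ι → ℍ) :
    bf K u v = ∑ i, ∑ j, star (u i) * K i j * v j := by
  simp only [bf, dotProduct, mulVec, Pi.star_apply, mul_sum, mul_assoc]

lemma bf_star (K : Matrix ι ι ℍ) (u v : ι → ℍ) : star (bf K u v) = bf Kᴴ v u := by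
  rw [bf_eq, bf_eq, sum_comm]
  simp only [star_sum, star_mul, star_star, conjTranspose_apply, mul_assoc]

lemma bf_rm (K : Matrix ι ι ℍ) (u v : ι → ℍ) (a b : ℍ) :
    bf K (rm u a) (rm v b) = star a * bf K u v * b := by
  simp only [bf_eq, rm, star_mul, mul_sum, sum_mul, mul_assoc]

lemma bf_add (K : Matrix ι ι ℍ) (u v : ι → ℍ) :
    bf K (u + v) (u + v) = bf K u u + bf K v v + (bf K u v + bf K v u) := by
  simp only [bf, star_add, mulVec_add, add_dotProduct, dotProduct_add]; abel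

lemma bf_mul (K C : Matrix ι ι ℍ) (u v : ι → ℍ) : bf (K * C) u v = bf K u (C *ᵥ v) := by
  simp only [bf, mulVec_mulVec]

lemma bf_smul (K : Matrix ι ι ℍ) (e : ℝ) (u v : ι → ℍ) : bf (e • K) u v = e • bf K u v := by
  simp only [bf_eq, Matrix.smul_apply, smul_sum, mul_smul_comm, smul_mul_assoc]

lemma re_comm (a b : ℍ) : (a * b).re = (b * a).re := by simp; ring

lemma re_conj (a g : ℍ) : (star a * g * a).re = normSq a * g.re := by
  simp [normSq_def']; ring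

lemma exists_q (a b c d : ℝ) : ∃ m : ℍ, m.re = a ∧ m.imI = b ∧ m.imJ = c ∧ m.imK = d :=
  ⟨⟨a, b, c, d⟩, rfl, rfl, rfl, rfl⟩

lemma exists_anti {z : ℍ} (h0 : z.re = 0) : ∃ m : ℍ, m ≠ 0 ∧ -z * m = m * z := by
  by_cases h : z.imJ = 0 ∧ z.imK = 0
  · obtain ⟨m, m0, m1, m2, m3⟩ := exists_q 0 0 1 0
    refine ⟨m, fun hm => by simp [hm] at m2, ?_⟩
    ext <;> simp [h0, h.1, h.2, m0, m1, m2, m3]
  · obtain ⟨m, m0, m1, m2, m3⟩ := exists_q 0 0 z.imK (-z.imJ)
    refine ⟨m, fun hm => h ?_, ?_⟩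
    · simp [hm] at m2 m3
      exact ⟨m3, m2.symm⟩
    · ext <;> simp [h0, m0, m1, m2, m3] <;> ring

lemma sq_im {z : ℍ} (h0 : z.re = 0) : z * z = -((‖z‖ ^ 2 : ℝ) : ℍ) := by
  have := self_mul_star z
  rw [star_eq_neg.2 h0, mul_neg, neg_eq_iff_eq_neg] at this
  rw [this, normSq_eq_norm_mul_self, sq]

lemma root_ker {C : Matrix ι ι ℍ} {z : ℍ} (h0 : z.re = 0)
    (hJ : ∀ q : ℍ, q.re = 0 → ∀ u, L C q (L C q u) = 0 → L C q u = 0) {v : ι → ℍ}
    (hv : v ∈ Root C z) : L C z (L C (-z) v) = 0 := by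
  have key : ∀ (P : Matrix ι ι ℍ), (∀ u, P *ᵥ (P *ᵥ u) = 0 → P *ᵥ u = 0) →
      ∀ (N : ℕ) (u : ι → ℍ), (P ^ N) *ᵥ u = 0 → P *ᵥ u = 0 := by
    intro P hP N
    induction N with
    | zero => intro u hu; simp at hu; simp [hu]
    | succ N ih =>
      intro u hu
      rw [pow_succ, ← mulVec_mulVec] at hu
      exact hP u (ih _ hu)
  by_cases hz : z.im = 0
  · have z0 : z = 0 := by rw [← re_add_im z, hz, h0]; simp
    subst z0
    have e : ∀ u, L C 0 u = C *ᵥ u := fun u => by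
      unfold L; ext1 i; simp [rm]
    have hp : pmat C 0 = C := by simp [pmat]
    have := key C (fun u hu => by
      rw [← e]; exact hJ 0 rfl u (by rw [e, e]; exact hu)) _ v (by rw [← hp]; exact hv)
    rw [neg_zero, e, e, this, mulVec_zero]
  · have hp : ∀ u, pmat C z *ᵥ u = L C z (L C (-z) u) := by
      intro u
      rw [L_L, pmat, if_neg hz, h0, add_mulVec, sub_mulVec, smul_mulVec, smul_mulVec, one_mulVec,
        ← mulVec_mulVec, neg_mul, sq_im h0]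
      ext1 i
      generalize ‖z‖ ^ 2 = r
      simp [rm, mul_coe_eq_smul]
    have hc : z * -z = -z * z := by simp
    rw [← hp]
    refine key _ (fun u hu => ?_) _ v hv
    rw [hp, hp, ← L_comm C hc] at hu
    have h1 := hJ z h0 _ hu
    rw [L_comm C hc, L_comm C hc] at h1
    have h2 := hJ (-z) (by simp [h0]) _ h1
    rw [hp, L_comm C hc, h2]

lemma pick {C K : Matrix ι ι ℍ} {z : ℍ} (h0 : z.re = 0)
    (hJ : ∀ q : ℍ, q.re = 0 → ∀ u, L C q (L C q u) = 0 → L C q u = 0)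
    (hX : z ≠ 0 → ∀ u v, C *ᵥ u = rm u z → C *ᵥ v = rm v (-z) → (bf K u v + bf K v u).re = 0)
    (s : ℝ) {v : ι → ℍ} (hv : v ∈ Root C z) (hv0 : v ≠ 0) (hq : s * (bf K v v).re ≤ 0) :
    ∃ w, w ≠ 0 ∧ C *ᵥ w = rm w z ∧ s * (bf K w w).re ≤ 0 := by
  have h1 := root_ker h0 hJ hv
  by_cases hz : z = 0
  · subst hz
    rw [neg_zero] at h1
    exact ⟨v, hv0, sub_eq_zero.mp (hJ 0 rfl v h1), hq⟩
  have hc : z * -z = -z * z := by simp
  have h2 : L C (-z) (L C z v) = 0 := by rw [← L_comm C hc, h1]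
  obtain ⟨a, ha⟩ : ∃ a : ℍ, a = (2 * z)⁻¹ := ⟨_, rfl⟩
  have two : (2 : ℍ) * z ≠ 0 := by
    rw [two_mul]; intro h; apply hz
    have : (2 : ℝ) • z = 0 := by rw [two_smul]; exact h
    simpa using this
  have haz : a * z = z * a := by
    rw [ha]
    exact (Commute.inv_left₀ (show Commute (2 * z) z from by
      simp [Commute, SemiconjBy, two_mul, add_mul, mul_add])).eq
  have e1 : C *ᵥ rm (L C (-z) v) a = rm (rm (L C (-z) v) a) z := by
    rw [mulVec_rm', sub_eq_zero.mp h1, rm_rm, rm_rm, haz]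
  have e2 : C *ᵥ rm (L C z v) (-a) = rm (rm (L C z v) (-a)) (-z) := by
    rw [mulVec_rm', sub_eq_zero.mp h2, rm_rm, rm_rm, neg_mul_neg, neg_mul_neg, haz]
  have e3 : v = rm (L C (-z) v) a + rm (L C z v) (-a) := by
    ext1 i
    have : (2 * z) * a = 1 := by rw [ha, mul_inv_cancel₀ two]
    simp only [rm, L, Pi.add_apply, Pi.sub_apply]
    calc v i = v i * ((2 * z) * a) := by rw [this, mul_one]
      _ = _ := by noncomm_ring
  generalize rm (L C (-z) v) a = p at e1 e3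
  generalize rm (L C z v) (-a) = q at e2 e3
  have e4 : (bf K v v).re = (bf K p p).re + (bf K q q).re := by
    rw [e3, bf_add, re_add, hX hz p q e1 e2, re_add, add_zero]
  by_cases hp : p ≠ 0 ∧ s * (bf K p p).re ≤ 0
  · exact ⟨p, hp.1, e1, hp.2⟩
  · have hq' : q ≠ 0 ∧ s * (bf K q q).re ≤ 0 := by
      by_cases hp0 : p = 0
      · subst hp0
        rw [zero_add] at e3
        exact e3 ▸ ⟨hv0, hq⟩
      · have : 0 < s * (bf K p p).re := by
          by_contra hh; exact hp ⟨hp0, not_lt.mp hh⟩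
        have h5 : s * (bf K q q).re < 0 := by rw [e4, mul_add] at hq; linarith
        refine ⟨fun h => ?_, h5.le⟩
        rw [h] at h5; simp [bf] at h5
    obtain ⟨m, hm, hmz⟩ := exists_anti h0
    refine ⟨rm q m, rm_ne hq'.1 hm, by rw [mulVec_rm', e2, rm_rm, rm_rm, hmz], ?_⟩
    rw [bf_rm, re_conj, mul_left_comm]
    exact mul_nonpos_of_nonneg_of_nonpos normSq_nonneg hq'.2

lemma neutral {C K : Matrix ι ι ℍ} {z : ℍ} {u w : ι → ℍ} (hu0 : u ≠ 0) (hw0 : w ≠ 0)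
    (hu : C *ᵥ u = rm u z) (hw : C *ᵥ w = rm w z) (h1 : (bf K u u).re ≤ 0)
    (h2 : 0 ≤ (bf K w w).re) : ∃ y, y ≠ 0 ∧ C *ᵥ y = rm y z ∧ (bf K y y).re = 0 := by
  have hc : Continuous fun s : ℝ => (bf K ((1 - s) • u + s • w) ((1 - s) • u + s • w)).re := by
    simp only [bf_eq, Pi.add_apply, Pi.smul_apply]
    exact Quaternion.continuous_re.comp (by fun_prop)
  obtain ⟨s, hs, hs0⟩ := intermediate_value_Icc zero_le_one hc.continuousOn
    (show (0 : ℝ) ∈ Set.Icc _ _ from ⟨by simpa using h1, by simpa using h2⟩)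
  by_cases hy : (1 - s) • u + s • w = 0
  · have hs1 : s ≠ 0 := by
      rintro rfl
      exact hu0 (by simpa using hy)
    have e : w = rm u ((-(1 - s) / s : ℝ) : ℍ) := by
      ext1 i
      have := congrFun hy i
      simp only [Pi.add_apply, Pi.smul_apply, Pi.zero_apply] at this
      have h3 : s • w i = -((1 - s) • u i) := eq_neg_of_add_eq_zero_right this
      rw [rm, mul_coe_eq_smul, neg_div, neg_smul, div_eq_inv_mul, mul_smul, ← smul_neg, ← h3,
        smul_smul, inv_mul_cancel₀ hs1, one_smul]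
    refine ⟨w, hw0, hw, le_antisymm ?_ h2⟩
    rw [e, bf_rm, re_conj]
    exact mul_nonpos_of_nonneg_of_nonpos normSq_nonneg h1
  · refine ⟨_, hy, ?_, hs0⟩
    rw [mulVec_add, mulVec_smul, mulVec_smul, hu, hw]
    ext1 i
    simp [rm, add_mul]

lemma anti {C G : Matrix ι ι ℍ} {z : ℍ} (h0 : z.re = 0) {e : ℝ} (he : e * e = 1)
    (hG : Gᴴ = (-e) • G) (hGC : (G * C)ᴴ = e • (G * C)) {u v : ι → ℍ}
    (hu : C *ᵥ u = rm u z) (hv : C *ᵥ v = rm v (-z)) :
    bf (G * C) u v = z * bf G u v ∧ z * bf G u v = -(bf G u v * z) := by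
  have a1 : bf (G * C) u v = -(bf G u v * z) := by
    have := bf_rm G u v 1 (-z)
    rw [rm_one] at this
    rw [bf_mul, hv, this]; simp
  have a2 : bf (G * C) v u = bf G v u * z := by
    have := bf_rm G v u 1 z
    rw [rm_one] at this
    rw [bf_mul, hu, this]; simp
  have a3 := congrArg star a2
  rw [bf_star, hGC, bf_smul, star_mul, bf_star, hG, bf_smul, star_eq_neg.2 h0, mul_smul_comm,
    neg_mul, neg_smul, smul_neg, neg_neg] at a3
  have a4 := congrArg (fun t => e • t) a3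
  simp only [smul_smul, he, one_smul] at a4
  exact ⟨a4, a4.symm.trans a1⟩

lemma re_anti {z g : ℍ} (h0 : z.re = 0) (hz : z ≠ 0) (h : z * g = -(g * z)) : g.re = 0 := by
  by_contra hg
  apply hz
  simp only [Quaternion.ext_iff] at h ⊢
  simp [h0] at h ⊢
  obtain ⟨-, h1, h2, h3⟩ := h
  refine ⟨?_, ?_, ?_⟩
  · exact (mul_eq_zero.mp (show z.imI * g.re = 0 by linarith)).resolve_right hg
  · exact (mul_eq_zero.mp (show z.imJ * g.re = 0 by linarith)).resolve_right hg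
  · exact (mul_eq_zero.mp (show z.imK * g.re = 0 by linarith)).resolve_right hg

lemma tower {V : Type} [NormedAddCommGroup V] [NormedSpace ℝ V] (l : ℕ) :
    ∀ Y : ℕ → ℝ → V, (∀ k t, HasDerivAt (Y k) (Y (k + 1) t) t) →
      ContDiff ℝ l (Y 0) ∧ iteratedDeriv l (Y 0) = Y l := by
  induction l with
  | zero =>
    intro Y h
    exact ⟨by simpa using continuous_iff_continuousAt.mpr fun t => (h 0 t).continuousAt, by simp⟩
  | succ l ih =>
    intro Y h
    have e : deriv (Y 0) = Y 1 := funext fun t => (h 0 t).deriv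
    obtain ⟨h1, h2⟩ := ih (fun k => Y (k + 1)) fun k t => h (k + 1) t
    refine ⟨?_, by rw [iteratedDeriv_succ', e]; exact h2⟩
    rw [Nat.cast_succ, contDiff_succ_iff_deriv, e]
    exact ⟨fun t => (h 0 t).differentiableAt, by simp, h1⟩

lemma norm_e (z : ℍ) (t : ℝ) : ‖exp (t • z)‖ = Real.exp (t * z.re) := by
  rw [Quaternion.norm_exp, ← Real.exp_eq_exp_ℝ]
  simp

lemma re_zero {a z : ℍ} (ha : a ≠ 0) {c : ℝ} (h : ∀ t : ℝ, ‖a * exp (t • z)‖ ≤ c) : z.re = 0 := by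
  by_contra hz
  have ha' : 0 < ‖a‖ := norm_pos_iff.mpr ha
  have := h (c / ‖a‖ / z.re)
  rw [norm_mul, norm_e, div_mul_cancel₀ _ hz] at this
  have h2 := Real.add_one_le_exp (c / ‖a‖)
  have h3 : ‖a‖ * (c / ‖a‖ + 1) ≤ c := (mul_le_mul_of_nonneg_left h2 ha'.le).trans this
  rw [mul_add, mul_div_cancel₀ _ ha'.ne'] at h3
  linarith

lemma lin_zero {a b z : ℍ} (h0 : z.re = 0) {c : ℝ}
    (h : ∀ t : ℝ, ‖(a + t • b) * exp (t • z)‖ ≤ c) : b = 0 := by
  by_contra hb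
  have hb' : 0 < ‖b‖ := norm_pos_iff.mpr hb
  have hc : 0 ≤ c := (norm_nonneg _).trans (h 0)
  have := h ((c + ‖a‖ + 1) / ‖b‖)
  rw [norm_mul, norm_e, h0, mul_zero, Real.exp_zero, mul_one] at this
  have h2 := norm_sub_le (a + ((c + ‖a‖ + 1) / ‖b‖) • b) a
  rw [add_sub_cancel_left, norm_smul, Real.norm_of_nonneg (by positivity),
    div_mul_cancel₀ _ hb'.ne'] at h2
  linarith

end Gen

end Pool.Agent.H.MP_554556_an
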