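import Pool.Agent.H.MP_554556_an.A

set_option autoImplicit false
set_option linter.unusedSectionVars false

namespace Pool.Agent.H.MP_554556_an
open Matrix Quaternion Finset NormedSpace Filter Topology

variable {n m : ℕ} {A : ℕ → Matrix (Fin n) (Fin n) ℍ} {B : Matrix (Fin n) (Fin n) ℍ}

def blk (v : Fin (m + 1) × Fin n → ℍ) (k : Fin (m + 1)) : Fin n → ℍ := fun i => v (k, i)

lemma C_up (v : Fin (m + 1) × Fin n → ℍ) (k k' : Fin (m + 1)) (h : k'.val = k.val + 1)
    (i : Fin n) : (compan (m + 1) A B *ᵥ v) (k, i) = v (k', i) := by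
  have hk : k.val + 1 < m + 1 := h ▸ k'.isLt
  simp only [mulVec, dotProduct, compan, if_pos hk]
  rw [sum_eq_single (k', i)]
  · simp [h]
  · rintro ⟨a, b⟩ _ hne
    rw [if_neg, zero_mul]
    rintro ⟨h1, h2⟩
    exact hne (Prod.ext (Fin.ext (h1.trans h.symm)) h2)
  · simp

lemma C_last (v : Fin (m + 1) × Fin n → ℍ) :
    blk (compan (m + 1) A B *ᵥ v) (Fin.last m) = -(B *ᵥ ∑ j : Fin (m + 1), A j *ᵥ blk v j) := by
  rw [mulVec_sum]
  ext1 i
  simp only [mulVec_mulVec, Pi.neg_apply, Finset.sum_apply]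
  simp only [blk, mulVec, dotProduct, compan, Fin.val_last, lt_irrefl, if_false,
    Fintype.sum_prod_type, neg_mul, sum_neg_distrib]

lemma pow_blk (k : ℕ) : ∀ (v : Fin (m + 1) × Fin n → ℍ) (j j' : Fin (m + 1)),
    j'.val = j.val + k → blk ((compan (m + 1) A B ^ k) *ᵥ v) j = blk v j' := by
  induction k with
  | zero => intro v j j' h; rw [pow_zero, one_mulVec, show j' = j from Fin.ext h]
  | succ k ih =>
    intro v j j' h
    rw [pow_succ, ← mulVec_mulVec, ih _ j ⟨j.val + k, by have := j'.isLt; omega⟩ rfl]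
    ext1 i
    exact C_up v _ j' (by simp; omega) i

lemma cayley (hB : A (m + 1) * B = 1) (v : Fin (m + 1) × Fin n → ℍ) :
    ∑ k ∈ range (m + 1 + 1), A k *ᵥ blk ((compan (m + 1) A B ^ k) *ᵥ v) 0 = 0 := by
  rw [sum_range_succ, pow_succ, ← mulVec_mulVec, pow_blk m _ 0 (Fin.last m) (by simp), C_last,
    mulVec_neg, mulVec_mulVec, hB, one_mulVec, sum_range, add_neg_eq_zero]
  exact sum_congr rfl fun j _ => by rw [pow_blk j v 0 j (by simp)]

lemma eig_blk {w : Fin (m + 1) × Fin n → ℍ} {z : ℍ} (h : compan (m + 1) A B *ᵥ w = rm w z)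
    (k : Fin (m + 1)) : blk w k = rm (blk w 0) (z ^ k.val) := by
  rw [← pow_blk (A := A) (B := B) k.val w 0 k (by simp), pow_eig h]; rfl

lemma eig_ne {w : Fin (m + 1) × Fin n → ℍ} {z : ℍ} (h : compan (m + 1) A B *ᵥ w = rm w z)
    (h0 : blk w 0 = 0) : w = 0 := by
  ext1 ⟨k, i⟩
  have := congrFun (eig_blk h k) i
  rw [h0] at this
  simpa [blk, rm] using this

lemma eig_eq (hB : A (m + 1) * B = 1) {w : Fin (m + 1) × Fin n → ℍ} {z : ℍ}
    (h : compan (m + 1) A B *ᵥ w = rm w z) :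
    ∑ k ∈ range (m + 1 + 1), A k *ᵥ rm (blk w 0) (z ^ k) = 0 := by
  rw [← cayley hB w]
  exact sum_congr rfl fun k _ => by rw [pow_eig h]; rfl

lemma bdd_tower {l : ℕ} (hb : Bdd l A) (Y : ℕ → ℝ → Fin n → ℍ)
    (h : ∀ k t, HasDerivAt (Y k) (Y (k + 1) t) t)
    (he : ∀ t, ∑ k ∈ range (l + 1), A k *ᵥ Y k t = 0) : ∃ c, ∀ t i, ‖Y 0 t i‖ ≤ c := by
  obtain ⟨c, hc⟩ := hb (Y 0) (tower l Y h).1 fun t => by
    rw [← he t]
    exact sum_congr rfl fun k _ => by rw [(tower k Y h).2]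
  exact ⟨c, fun t i => (norm_le_pi_norm _ i).trans (hc t)⟩

lemma chain (hB : A (m + 1) * B = 1) (hb : Bdd (m + 1) A) {u w : Fin (m + 1) × Fin n → ℍ} {z : ℍ}
    (hu : compan (m + 1) A B *ᵥ u = rm u z + w) (hw : compan (m + 1) A B *ᵥ w = rm w z) :
    ∃ c, ∀ (t : ℝ) i, ‖(u (0, i) + t • w (0, i)) * exp (t • z)‖ ≤ c := by
  obtain ⟨C, hC⟩ : ∃ C, C = compan (m + 1) A B := ⟨_, rfl⟩
  rw [← hC] at hu hw
  obtain ⟨X, hX⟩ : ∃ X : ℝ → Fin (m + 1) × Fin n → ℍ,
      X = fun t => rm (u + t • w) (exp (t • z)) := ⟨_, rfl⟩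
  have d : ∀ t p, HasDerivAt (fun t => X t p) ((C *ᵥ X t) p) t := by
    intro t p
    have h1 : HasDerivAt (fun t : ℝ => u p + t • w p) (w p) t := by
      simpa using ((hasDerivAt_id t).smul_const (w p)).const_add (u p)
    have h2 := h1.mul (hasDerivAt_exp_smul_const' z t)
    have e : C *ᵥ X t = rm (rm u z + w + t • rm w z) (exp (t • z)) := by
      rw [hX]
      show C *ᵥ rm (u + t • w) (exp (t • z)) = _
      rw [mulVec_rm', mulVec_add, mulVec_smul, hu, hw]
    have e' : (C *ᵥ X t) p = w p * exp (t • z) + (u p + t • w p) * (z * exp (t • z)) := by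
      rw [e]
      simp only [rm, Pi.add_apply, Pi.smul_apply, add_mul, smul_mul_assoc, mul_assoc]
      abel
    rw [e', hX]
    exact h2
  obtain ⟨c, hc⟩ := bdd_tower hb (fun k t => blk ((C ^ k) *ᵥ X t) 0)
    (fun k t => by
      rw [hasDerivAt_pi]
      intro i
      rw [pow_succ, ← mulVec_mulVec]
      simp only [blk]
      exact HasDerivAt.fun_sum fun p _ => (d t p).const_mul _)
    (fun t => by rw [hC]; exact cayley hB _)
  refine ⟨c, fun t i => ?_⟩
  simpa [hX, blk, rm] using hc t i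

lemma eig_re (hB : A (m + 1) * B = 1) (hb : Bdd (m + 1) A) {z : ℍ}
    (h : IsEig (compan (m + 1) A B) z) : z.re = 0 := by
  obtain ⟨v, hv, he⟩ := h
  obtain ⟨c, hc⟩ := chain hB hb (u := v) (w := 0) (z := z) (by rw [add_zero]; exact he)
    (by rw [mulVec_zero]; ext1 i; simp [rm])
  by_contra hz
  refine hv (eig_ne (z := z) he (funext fun i => ?_))
  by_contra hi
  exact hz (re_zero (a := v (0, i)) hi (c := c) fun t => by simpa using hc t i)

lemma jordan (hB : A (m + 1) * B = 1) (hb : Bdd (m + 1) A) (q : ℍ) (h0 : q.re = 0)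
    (u : Fin (m + 1) × Fin n → ℍ) (h : L (compan (m + 1) A B) q (L (compan (m + 1) A B) q u) = 0) :
    L (compan (m + 1) A B) q u = 0 := by
  have hw := sub_eq_zero.mp h
  obtain ⟨c, hc⟩ := chain hB hb (u := u) (z := q) (by rw [L]; abel) hw
  exact eig_ne hw (funext fun i => lin_zero h0 fun t => hc t i)

lemma GC_apply (hB : A (m + 1) * B = 1) (p q : Fin (m + 1) × Fin n) :
    (gmat (m + 1) A * compan (m + 1) A B) p q =
      if p.1.val = 0 ∨ q.1.val = 0 then (if p.1.val = 0 ∧ q.1.val = 0 then -A 0 p.2 q.2 else 0)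
      else if p.1.val + q.1.val ≤ m + 1 then (-1) ^ p.1.val * A (p.1.val + q.1.val) p.2 q.2
      else 0 := by
  obtain ⟨i, a⟩ := p
  obtain ⟨j, b⟩ := q
  have hl : ∑ c, gmat (m + 1) A (i, a) (Fin.last m, c) * compan (m + 1) A B (Fin.last m, c) (j, b) =
      if i.val = 0 then -A j.val a b else 0 := by
    simp only [gmat, compan, Fin.val_last, lt_irrefl, if_false]
    split_ifs with h1 h2 h2
    · simp only [h2, zero_add, pow_zero, one_mul, mul_neg, sum_neg_distrib]
      rw [← Matrix.mul_apply, ← Matrix.mul_assoc, hB, Matrix.one_mul]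
    · omega
    · omega
    · simp
  have hc : ∀ k : Fin m, ∑ c, gmat (m + 1) A (i, a) (k.castSucc, c) *
      compan (m + 1) A B (k.castSucc, c) (j, b) =
      if j = k.succ then gmat (m + 1) A (i, a) (k.castSucc, b) else 0 := by
    intro k
    have hk : k.castSucc.val + 1 < m + 1 := by simp
    simp only [compan, if_pos hk]
    rw [sum_eq_single b]
    · simp [Fin.ext_iff]
    · intro c _ hc; simp [hc.symm]
    · simp
  rw [Matrix.mul_apply, Fintype.sum_prod_type, Fin.sum_univ_castSucc, hl]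
  simp only [hc]
  refine Fin.cases ?_ (fun j => ?_) j
  · simp [(Fin.succ_ne_zero _).symm]
  · simp only [Fin.succ_inj, sum_ite_eq, mem_univ, if_true, gmat, Fin.val_succ, Fin.val_castSucc]
    by_cases hi : i.val = 0
    · have : j.val + 1 ≤ m + 1 := by omega
      simp [hi]
    · simp [hi, add_assoc]

lemma star_sign {e : ℝ} {l : ℕ} (hA : ∀ k ≤ l, (A k)ᴴ = ((-1) ^ k * e) • A k) {k : ℕ} (hk : k ≤ l)
    (a b : Fin n) : star (A k b a) = ((-1) ^ k * e) • A k a b := by
  have := congrFun (congrFun (hA k hk) a) b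
  simpa using this

lemma neg_one_pow_mul (k : ℕ) (x : ℍ) : (-1 : ℍ) ^ k * x = ((-1 : ℝ) ^ k) • x := by
  rcases neg_one_pow_eq_or ℝ k with h | h <;> rcases Nat.even_or_odd k with h' | h' <;>
    simp [h'.neg_one_pow]

lemma G_adj {e : ℝ} (hA : ∀ k ≤ m + 1, (A k)ᴴ = ((-1) ^ k * e) • A k) :
    (gmat (m + 1) A)ᴴ = (-e) • gmat (m + 1) A := by
  ext1 ⟨i, a⟩ ⟨j, b⟩
  simp only [conjTranspose_apply, Matrix.smul_apply, gmat, add_comm j.val i.val]
  split_ifs with h
  · rw [neg_one_pow_mul, neg_one_pow_mul, Quaternion.star_smul, star_sign hA h, smul_smul, smul_smul]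
    congr 1
    rcases Nat.even_or_odd i.val with h1 | h1 <;> rcases Nat.even_or_odd j.val with h2 | h2 <;>
      simp [pow_add, h1.neg_one_pow, h2.neg_one_pow]
  · simp

lemma GC_adj {e : ℝ} (hB : A (m + 1) * B = 1) (hA : ∀ k ≤ m + 1, (A k)ᴴ = ((-1) ^ k * e) • A k) :
    (gmat (m + 1) A * compan (m + 1) A B)ᴴ = e • (gmat (m + 1) A * compan (m + 1) A B) := by
  ext1 ⟨i, a⟩ ⟨j, b⟩
  rw [conjTranspose_apply, Matrix.smul_apply, GC_apply hB, GC_apply hB]
  simp only [add_comm j.val i.val, or_comm (a := j.val = 0), and_comm (a := j.val = 0)]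
  split_ifs with h1 h2 h3
  · rw [star_neg, star_sign hA (Nat.zero_le _)]; simp
  · simp
  · rw [neg_one_pow_mul, neg_one_pow_mul, Quaternion.star_smul, star_sign hA h3, smul_smul, smul_smul]
    congr 1
    rcases Nat.even_or_odd i.val with h1 | h1 <;> rcases Nat.even_or_odd j.val with h2 | h2 <;>
      simp [pow_add, h1.neg_one_pow, h2.neg_one_pow]
  · simp

noncomputable def DD (z : ℍ) (k : ℕ) (t : ℝ) : ℍ := ∑ i ∈ range k, (t + z) ^ i * z ^ (k - 1 - i)

lemma DD_mul (z : ℍ) (k : ℕ) (t : ℝ) : t • DD z k t = (t + z) ^ k - z ^ k := by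
  have h : Commute ((t : ℍ) + z) z := Commute.add_left (coe_commute t z) (Commute.refl z)
  rw [← h.geom_sum₂_mul, add_sub_cancel_right, mul_coe_eq_smul, DD]

lemma G_eig {w : Fin (m + 1) × Fin n → ℍ} {z : ℍ} (h0 : z.re = 0)
    (h : compan (m + 1) A B *ᵥ w = rm w z) (p : ℍ) (hp : Commute z p) :
    (bf (gmat (m + 1) A) w w * p).re =
      ((∑ k ∈ range (m + 1 + 1), bf (A k) (blk w 0) (blk w 0) * DD z k 0) * p).re := by
  obtain ⟨x, hx⟩ : ∃ x, x = blk w 0 := ⟨_, rfl⟩
  have e1 : bf (gmat (m + 1) A) w w = ∑ i : Fin (m + 1), ∑ j : Fin (m + 1),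
      if i.val + j.val + 1 ≤ m + 1 then z ^ i.val * bf (A (i.val + j.val + 1)) x x * z ^ j.val
      else 0 := by
    rw [bf_eq]
    simp only [Fintype.sum_prod_type]
    refine sum_congr rfl fun i _ => ?_
    rw [sum_comm]
    refine sum_congr rfl fun j _ => ?_
    have hw : ∀ k a, w (k, a) = x a * z ^ k.val := fun k a => by
      rw [hx]; exact congrFun (eig_blk h k) a
    simp only [gmat, hw]
    split_ifs with hij
    · rw [bf_eq, mul_sum, sum_mul]
      refine sum_congr rfl fun a _ => ?_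
      rw [mul_sum, sum_mul]
      refine sum_congr rfl fun b _ => ?_
      rw [star_mul, star_pow, star_eq_neg.2 h0, neg_pow z, neg_one_pow_mul, neg_one_pow_mul]
      simp only [smul_mul_assoc, mul_smul_comm, smul_smul, mul_assoc, ← pow_add, ← two_mul,
        pow_mul, neg_one_sq, one_pow, one_smul]
    · simp
  rw [e1, ← hx, sum_range_succ']
  simp only [DD, range_zero, sum_empty, mul_zero, add_zero, Quaternion.coe_zero, zero_add, mul_sum, sum_mul,
    Nat.add_sub_cancel]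
  have re_sum : ∀ {α : Type} (s : Finset α) (f : α → ℍ), (∑ a ∈ s, f a).re = ∑ a ∈ s, (f a).re :=
    fun s f => map_sum (QuaternionAlgebra.reₗ (-1 : ℝ) 0 (-1)) f s
  have e2 := sum_range_diag_flip (m + 1)
    (fun i j => (bf (A (i + j + 1)) x x * (z ^ i * z ^ j) * p).re)
  simp only [re_sum]
  have e3 : ∑ k ∈ range (m + 1), ∑ i ∈ range (k + 1),
      (bf (A (k + 1)) x x * (z ^ i * z ^ (k - i)) * p).re = ∑ k ∈ range (m + 1),
      ∑ i ∈ range (k + 1), (bf (A (i + (k - i) + 1)) x x * (z ^ i * z ^ (k - i)) * p).re :=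
    sum_congr rfl fun k _ => sum_congr rfl fun i hi => by
      rw [show i + (k - i) + 1 = k + 1 by have := mem_range.mp hi; omega]
  rw [e3, e2, sum_range]
  refine sum_congr rfl fun i _ => ?_
  rw [← sum_range (fun j => ((if i.val + j + 1 ≤ m + 1 then
    z ^ i.val * bf (A (i.val + j + 1)) x x * z ^ j else 0) * p).re)]
  symm
  refine sum_subset_zero_on_sdiff (range_subset_range.mpr (Nat.sub_le _ _)) (fun j hj => ?_)
    fun j hj => ?_
  · rw [if_neg (by simp at hj; omega)]; simp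
  · rw [if_pos (by simp at hj; omega), mul_assoc (z ^ i.val), mul_assoc (z ^ i.val),
      re_comm (z ^ i.val)]
    have : z ^ i.val * z ^ j * p = z ^ j * p * z ^ i.val := by
      rw [mul_assoc (z ^ j), ← (hp.pow_left i.val).eq, ← mul_assoc, ← pow_add, ← pow_add,
        add_comm j]
    simp only [mul_assoc] at this ⊢
    rw [this]

end Pool.Agent.H.MP_554556_an
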