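import Pool.Agent.H.MP_554556_an.B

set_option autoImplicit false
set_option linter.unusedSectionVars false

namespace Pool.Agent.H.MP_554556_an
open Matrix Quaternion Finset NormedSpace Filter Topology

variable {n m : ℕ} {A : ℕ → Matrix (Fin n) (Fin n) ℍ} {B : Matrix (Fin n) (Fin n) ℍ}

lemma unbdd {l : ℕ} {x : Fin n → ℍ} {y : ℍ} (hx : x ≠ 0) (hy : y.re ≠ 0)
    (h : ∑ k ∈ range (l + 1), A k *ᵥ rm x (y ^ k) = 0) : ¬ Bdd l A := by
  intro hb
  obtain ⟨c, hc⟩ := bdd_tower hb (fun k t => rm x (y ^ k * exp (t • y)))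
    (fun k t => by
      rw [hasDerivAt_pi]
      intro i
      have := ((hasDerivAt_exp_smul_const' y t).const_mul (y ^ k)).const_mul (x i)
      rw [← mul_assoc (y ^ k), ← pow_succ] at this
      exact this)
    (fun t => by
      ext1 i
      have := congrFun h i
      simp only [← rm_rm, mulVec_rm', Finset.sum_apply, Pi.zero_apply] at this ⊢
      simp only [rm] at this ⊢
      rw [← sum_mul, this, zero_mul])
  refine hx (funext fun i => ?_)
  by_contra hi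
  exact hy (re_zero (a := x i) hi (c := c) fun t => by simpa [rm] using hc t i)

noncomputable def NN (x : Fin n → ℍ) : ℝ := ∑ i, normSq (x i)

lemma NN_ne {x : Fin n → ℍ} (hx : x ≠ 0) : NN x ≠ 0 := by
  intro h
  rw [NN, sum_eq_zero_iff_of_nonneg fun i _ => normSq_nonneg] at h
  exact hx (funext fun i => normSq_eq_zero.mp (h i (mem_univ i)))

lemma dot_self (x : Fin n → ℍ) : star x ⬝ᵥ x = (NN x : ℍ) := by
  simp only [dotProduct, Pi.star_apply, star_mul_self, NN]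
  exact (map_sum (algebraMap ℝ ℍ) _ _).symm

lemma dot_rm (x u : Fin n → ℍ) (a : ℍ) : star x ⬝ᵥ rm u a = (star x ⬝ᵥ u) * a := by
  simp only [dotProduct, rm, sum_mul, mul_assoc]

lemma dot_star (x u : Fin n → ℍ) : star u ⬝ᵥ x = star (star x ⬝ᵥ u) := by
  simp only [dotProduct, Pi.star_apply, star_sum, star_mul, star_star]

noncomputable def TT (e : ℝ) (x u : Fin n → ℍ) : Matrix (Fin n) (Fin n) ℍ := fun i j =>
  (NN x)⁻¹ • (u i * star (x j)) + (e * (NN x)⁻¹) • (x i * star (u j)) -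
    ((NN x)⁻¹ * (NN x)⁻¹) • (x i * (star x ⬝ᵥ u) * star (x j))

lemma TT_adj {e : ℝ} (he : e * e = 1) {x u : Fin n → ℍ}
    (h : star (star x ⬝ᵥ u) = e • (star x ⬝ᵥ u)) : (TT e x u)ᴴ = e • TT e x u := by
  ext1 i j
  simp only [conjTranspose_apply, Matrix.smul_apply, TT, star_sub, star_add, Quaternion.star_smul,
    star_mul, star_star, h, smul_add, smul_sub, smul_smul, ← mul_assoc, he, one_mul,
    smul_mul_assoc, mul_smul_comm]
  rw [add_comm, mul_comm _ e, mul_assoc e]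

lemma TT_mul {e : ℝ} (he : e * e = 1) {x u : Fin n → ℍ} (hx : x ≠ 0)
    (h : star (star x ⬝ᵥ u) = e • (star x ⬝ᵥ u)) : TT e x u *ᵥ x = u := by
  ext1 i
  have h1 := dot_self x
  have h2 := (dot_star x u).trans h
  have hN := NN_ne hx
  generalize hg : star x ⬝ᵥ u = g at h2
  simp only [dotProduct, Pi.star_apply] at h1 h2
  simp only [mulVec, dotProduct, TT, add_mul, sub_mul, sum_add_distrib, sum_sub_distrib,
    smul_mul_assoc, ← smul_sum, mul_assoc, ← mul_sum, h1, h2]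
  have hg' : ∑ x_1, star x x_1 * u x_1 = g := hg
  simp only [hg', mul_coe_eq_smul, mul_smul_comm, smul_smul]
  rw [inv_mul_cancel₀ hN, one_smul, mul_right_comm e, he, one_mul, mul_assoc,
    inv_mul_cancel₀ hN, mul_one, add_sub_cancel_right]

lemma TT_small (e : ℝ) (x : Fin n → ℍ) {u : ℝ → Fin n → ℍ} (hu : ContinuousAt u 0) (h0 : u 0 = 0)
    {ε : ℝ} (hε : 0 < ε) : ∀ᶠ t in 𝓝 (0 : ℝ), ∀ i j, ‖TT e x (u t) i j‖ < ε := by
  simp only [eventually_all]
  intro i j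
  have hc : Continuous fun v : Fin n → ℍ => ‖TT e x v i j‖ := by
    simp only [TT, dotProduct]
    fun_prop
  have := (hc.continuousAt (x := u 0)).comp hu
  refine this.eventually_lt continuousAt_const ?_
  simp [h0, TT, hε]

noncomputable def cc (l : ℕ) (A : ℕ → Matrix (Fin n) (Fin n) ℍ) (x : Fin n → ℍ) (z : ℍ) (t : ℝ) :
    ℍ := -∑ k ∈ range (l + 1), bf (A k) x x * DD z k t

lemma DD_cont (z : ℍ) (k : ℕ) : Continuous (DD z k) := by
  unfold DD
  have : Continuous fun t : ℝ => (t : ℍ) := Quaternion.continuous_coe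
  fun_prop

lemma cc_cont (l : ℕ) (x : Fin n → ℍ) (z : ℍ) : Continuous (cc l A x z) := by
  unfold cc
  have := DD_cont z
  fun_prop

lemma perturb {e : ℝ} (he : e * e = 1) (hA : ∀ k ≤ m + 1, (A k)ᴴ = ((-1) ^ k * e) • A k)
    {x : Fin n → ℍ} {z : ℍ} (hx : x ≠ 0) (h0 : z.re = 0)
    (h : ∑ k ∈ range (m + 1 + 1), A k *ᵥ rm x (z ^ k) = 0) (τ : ℝ → ℍ) (hτ : ContinuousAt τ 0)
    (τ0 : τ 0 = 0) (h1 : ∀ t, 0 < t → star (τ t) = (-e) • τ t)
    (h2 : ∀ t, 0 < t → star (t • cc (m + 1) A x z t - τ t * (t + z)) =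
      e • (t • cc (m + 1) A x z t - τ t * (t + z))) {ε : ℝ} (hε : 0 < ε) :
    ∃ A' : ℕ → Matrix (Fin n) (Fin n) ℍ, (∀ k ≤ m + 1, (A' k)ᴴ = ((-1) ^ k * e) • A' k) ∧
      (∀ k, 2 ≤ k → A' k = A k) ∧ (∀ k i j, ‖A' k i j - A k i j‖ < ε) ∧ ¬ Bdd (m + 1) A' := by
  obtain ⟨r, hr⟩ : ∃ r : ℝ → Fin n → ℍ,
      r = fun t => ∑ k ∈ range (m + 1 + 1), A k *ᵥ rm x (DD z k t) := ⟨_, rfl⟩
  obtain ⟨v, hv⟩ : ∃ v : ℝ → Fin n → ℍ, v = fun t => rm x ((NN x)⁻¹ • τ t) := ⟨_, rfl⟩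
  obtain ⟨u, hu⟩ : ∃ u : ℝ → Fin n → ℍ, u = fun t => -(t • r t) - rm (v t) (t + z) := ⟨_, rfl⟩
  have hN := NN_ne hx
  have cr : Continuous r := by
    rw [hr]
    simp only [mulVec_rm']
    unfold rm
    have := DD_cont z
    fun_prop
  have cv : ContinuousAt v 0 := by
    rw [hv]; unfold rm; fun_prop
  have cu : ContinuousAt u 0 := by
    rw [hu]
    have : Continuous fun t : ℝ => (t : ℍ) := Quaternion.continuous_coe
    refine ContinuousAt.sub (by fun_prop) (continuousAt_pi.mpr fun i => ?_)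
    exact (continuousAt_pi.mp cv i).mul (by fun_prop)
  have v0 : v 0 = 0 := by rw [hv]; ext1 i; simp [rm, τ0]
  have u0 : u 0 = 0 := by rw [hu]; ext1 i; simp [rm, v0]
  obtain ⟨t, ⟨s1, s2⟩, ht⟩ := ((((TT_small e x cu u0 hε).and
    (TT_small (-e) x cv v0 hε)).filter_mono nhdsWithin_le_nhds).and
    (self_mem_nhdsWithin (s := Set.Ioi (0 : ℝ)))).exists
  have ht : 0 < t := ht
  have dv : star x ⬝ᵥ v t = τ t := by
    rw [hv]
    simp only [dot_rm, dot_self, coe_mul_eq_smul, smul_smul, mul_inv_cancel₀ hN, one_smul]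
  have du : star x ⬝ᵥ u t = t • cc (m + 1) A x z t - τ t * (t + z) := by
    rw [hu]
    simp only [dotProduct_sub, dotProduct_neg, dotProduct_smul, dot_rm, dv, cc, smul_neg, hr,
      dotProduct_sum, mulVec_rm', bf]
  have he' : -e * -e = 1 := by rw [neg_mul_neg, he]
  have a0 := h2 t ht
  have a1 := h1 t ht
  rw [← du] at a0
  rw [← dv] at a1
  refine ⟨fun k => A k + if k = 0 then TT e x (u t) else if k = 1 then TT (-e) x (v t) else 0,
    fun k hk => ?_, fun k hk => ?_, fun k i j => ?_, unbdd hx (y := t + z) (by simp [h0, ht.ne']) ?_⟩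
  · rw [conjTranspose_add, hA k hk, smul_add]
    congr 1
    split_ifs with k0 k1
    · rw [TT_adj he a0, k0]; simp
    · rw [TT_adj he' a1, k1]; simp
    · simp
  · beta_reduce
    rw [if_neg (by omega), if_neg (by omega), add_zero]
  · beta_reduce
    rw [Matrix.add_apply, add_sub_cancel_left]
    split_ifs
    · exact s1 i j
    · exact s2 i j
    · simpa using hε
  · simp only [add_mulVec, sum_add_distrib]
    have b1 : ∑ k ∈ range (m + 1 + 1), A k *ᵥ rm x ((t + z) ^ k) = t • r t := by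
      rw [← sub_zero (∑ k ∈ range (m + 1 + 1), A k *ᵥ rm x ((t + z) ^ k)), ← h, hr, smul_sum,
        ← sum_sub_distrib]
      refine sum_congr rfl fun k _ => ?_
      rw [← mulVec_sub, ← mulVec_smul]
      congr 1
      ext1 i
      simp only [rm, Pi.sub_apply, Pi.smul_apply, ← mul_sub, ← DD_mul, mul_smul_comm]
    rw [b1, sum_range_succ', sum_range_succ', sum_eq_zero fun k _ => by simp]
    simp only [zero_add, if_true, one_ne_zero, if_false, pow_zero, pow_one, rm_one, mulVec_rm',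
      TT_mul he hx a0, TT_mul he' hx a1]
    rw [hu]; ext1 i; simp

lemma dichotomy {ι : Type} [Fintype ι] [DecidableEq ι] {C K : Matrix ι ι ℍ} {z : ℍ}
    (h0 : z.re = 0) (hJ : ∀ q : ℍ, q.re = 0 → ∀ u, L C q (L C q u) = 0 → L C q u = 0)
    (hX : z ≠ 0 → ∀ u v, C *ᵥ u = rm u z → C *ᵥ v = rm v (-z) → (bf K u v + bf K v u).re = 0)
    (hn : ∀ y, y ≠ 0 → C *ᵥ y = rm y z → (bf K y y).re ≠ 0) :
    (∀ v ∈ Root C z, v ≠ 0 → 0 < (bf K v v).re) ∨ (∀ v ∈ Root C z, v ≠ 0 → (bf K v v).re < 0) := by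
  by_contra hc
  push Not at hc
  obtain ⟨⟨v, hv, hv0, h1⟩, ⟨w, hw, hw0, h2⟩⟩ := hc
  obtain ⟨v', a1, a2, a3⟩ := pick h0 hJ hX 1 hv hv0 (by linarith)
  obtain ⟨w', b1, b2, b3⟩ := pick h0 hJ hX (-1) hw hw0 (by linarith)
  obtain ⟨y, c1, c2, c3⟩ := neutral (K := K) a1 b1 a2 b2 (by linarith) (by linarith)
  exact hn y c1 c2 c3

lemma bf_real {ι : Type} [Fintype ι] [DecidableEq ι] {K : Matrix ι ι ℍ} (hK : Kᴴ = K)
    (v : ι → ℍ) : (bf K v v).im = 0 := by
  have := bf_star K v v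
  rw [hK, star_eq_self] at this
  rw [this]; simp

lemma re_cross {ι : Type} [Fintype ι] [DecidableEq ι] {K : Matrix ι ι ℍ} (hK : Kᴴ = K)
    {u v : ι → ℍ} (h : (bf K u v).re = 0) : (bf K u v + bf K v u).re = 0 := by
  have := bf_star K u v
  rw [hK] at this
  rw [← this]; simp [h]

theorem coreI (hA : ∀ k ≤ m + 1, (A k)ᴴ = ((-1) ^ k * (1 : ℝ)) • A k) (hB : A (m + 1) * B = 1)
    {ε : ℝ} (hε : 0 < ε)
    (hst : ∀ A' : ℕ → Matrix (Fin n) (Fin n) ℍ,
      (∀ k ≤ m + 1, (A' k)ᴴ = ((-1) ^ k * (1 : ℝ)) • A' k) →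
      (∀ k i j, ‖A' k i j - A k i j‖ < ε) → Bdd (m + 1) A')
    {z : ℍ} (hz : IsEig (compan (m + 1) A B) z) (hz0 : z ≠ 0) :
    (∀ v ∈ Root (compan (m + 1) A B) z, v ≠ 0 →
      0 < (bf (gmat (m + 1) A * compan (m + 1) A B) v v).re) ∨
    (∀ v ∈ Root (compan (m + 1) A B) z, v ≠ 0 →
      (bf (gmat (m + 1) A * compan (m + 1) A B) v v).re < 0) := by
  have hb : Bdd (m + 1) A := hst A hA (fun _ _ _ => by simpa using hε)
  have h0 := eig_re hB hb hz
  refine dichotomy h0 (jordan hB hb) (fun _ u v hu hv => ?_) fun y hy0 hy hq => ?_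
  · refine re_cross (by simpa using GC_adj hB hA) ?_
    obtain ⟨a1, a2⟩ := anti h0 (one_mul 1) (G_adj hA) (GC_adj hB hA) hu hv
    have := congrArg QuaternionAlgebra.re a2
    rw [re_neg, re_comm (bf _ _ _)] at this
    rw [a1]; linarith
  · have hx : blk y 0 ≠ 0 := fun h => hy0 (eig_ne hy h)
    have q1 := bf_rm (gmat (m + 1) A) y y 1 z
    rw [rm_one, star_one, one_mul] at q1
    rw [bf_mul, hy, q1, G_eig h0 hy z (Commute.refl z)] at hq
    have cq : Continuous fun t : ℝ => (t : ℍ) := Quaternion.continuous_coe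
    have c1 := cc_cont (A := A) (m + 1) (blk y 0) z
    obtain ⟨ρ, hρ⟩ : ∃ ρ : ℝ → ℝ, ρ = fun t => (cc (m + 1) A (blk y 0) z t * star (t + z)).re :=
      ⟨_, rfl⟩
    have cρ : Continuous ρ := by
      rw [hρ]; exact Quaternion.continuous_re.comp (by fun_prop)
    have ρ0 : ρ 0 = 0 := by
      rw [hρ]
      simp only [Quaternion.coe_zero, zero_add, star_eq_neg.2 h0, cc, neg_mul_neg]
      exact hq
    have nz : ∀ t : ℝ, 0 < t → (t : ℍ) + z ≠ 0 := fun t ht h => by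
      have := congrArg QuaternionAlgebra.re h
      simp [h0] at this
      exact ht.ne' this
    obtain ⟨A', b1, -, b3, b4⟩ := perturb (one_mul 1) hA hx h0 (eig_eq hB hy)
      (fun t => (t • cc (m + 1) A (blk y 0) z t - (ρ t : ℍ)) * ((t : ℍ) + z)⁻¹)
      (ContinuousAt.mul (by have := cq.comp cρ; fun_prop)
        (ContinuousAt.inv₀ (by fun_prop) (by simpa using hz0)))
      (by simp [ρ0])
      (fun t ht => by
        rw [neg_smul, one_smul, star_eq_neg, Quaternion.inv_def, mul_smul_comm, re_smul, sub_mul,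
          re_sub, smul_mul_assoc, re_smul, coe_mul_eq_smul, re_smul, hρ]
        simp [h0, mul_comm])
      (fun t ht => by
        rw [inv_mul_cancel_right₀ (nz t ht), sub_sub_cancel, one_smul, star_coe]) hε
    exact b4 (hst A' b1 b3)

theorem coreII (hA : ∀ k ≤ m + 1, (A k)ᴴ = ((-1) ^ k * (-1 : ℝ)) • A k) (hB : A (m + 1) * B = 1)
    {ε : ℝ} (hε : 0 < ε)
    (hst : ∀ A' : ℕ → Matrix (Fin n) (Fin n) ℍ,
      (∀ k ≤ m + 1, (A' k)ᴴ = ((-1) ^ k * (-1 : ℝ)) • A' k) → (∀ k, 2 ≤ k → A' k = A k) →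
      (∀ k i j, ‖A' k i j - A k i j‖ < ε) → Bdd (m + 1) A')
    {z : ℍ} (hz : IsEig (compan (m + 1) A B) z) :
    (∀ v ∈ Root (compan (m + 1) A B) z, v ≠ 0 → 0 < (bf (gmat (m + 1) A) v v).re) ∨
    (∀ v ∈ Root (compan (m + 1) A B) z, v ≠ 0 → (bf (gmat (m + 1) A) v v).re < 0) := by
  have hb : Bdd (m + 1) A := hst A hA (fun _ _ => rfl) (fun _ _ _ => by simpa using hε)
  have h0 := eig_re hB hb hz
  have he : (-1 : ℝ) * -1 = 1 := by norm_num
  refine dichotomy h0 (jordan hB hb) (fun hz0 u v hu hv => ?_) fun y hy0 hy hq => ?_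
  · refine re_cross (by simpa using G_adj hA) ?_
    exact re_anti h0 hz0 (anti h0 he (G_adj hA) (GC_adj hB hA) hu hv).2
  · have hx : blk y 0 ≠ 0 := fun h => hy0 (eig_ne hy h)
    have q1 := G_eig h0 hy 1 (Commute.one_right z)
    rw [mul_one, mul_one, hq] at q1
    have cq : Continuous fun t : ℝ => (t : ℍ) := Quaternion.continuous_coe
    have c1 := cc_cont (A := A) (m + 1) (blk y 0) z
    obtain ⟨A', b1, b2, b3, b4⟩ := perturb he hA hx h0 (eig_eq hB hy)
      (fun t => ((cc (m + 1) A (blk y 0) z t).re : ℍ))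
      (cq.comp (Quaternion.continuous_re.comp c1)).continuousAt
      (by simp only [cc, re_neg, ← q1]; simp)
      (fun t ht => by simp)
      (fun t ht => by
        rw [neg_smul, one_smul, star_eq_neg]
        simp [h0, mul_comm]) hε
    exact b4 (hst A' b1 b2 b3)

end Pool.Agent.H.MP_554556_an
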