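import Mathlib

set_option autoImplicit false

namespace Pool.Agent.H.MP_554556_an
open Matrix Quaternion

variable {n : ℕ}

/-- every `l` times continuously differentiable solution of `∑ A k x^(k) = 0` is bounded -/
def Bdd (l : ℕ) (A : ℕ → Matrix (Fin n) (Fin n) ℍ) : Prop :=
  ∀ x : ℝ → Fin n → ℍ, ContDiff ℝ l x →
    (∀ t, ∑ k ∈ Finset.range (l + 1), A k *ᵥ iteratedDeriv k x t = 0) → ∃ c, ∀ t, ‖x t‖ ≤ c

/-- every admissible system with coefficients close to `A 0, …, A l` is bounded -/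
def StablyBdd (l : ℕ) (Adm : (ℕ → Matrix (Fin n) (Fin n) ℍ) → Prop)
    (A : ℕ → Matrix (Fin n) (Fin n) ℍ) : Prop :=
  ∃ ε : ℝ, 0 < ε ∧ ∀ A', Adm A' → (∀ k ≤ l, ∀ i j, ‖A' k i j - A k i j‖ < ε) → Bdd l A'

/-- block companion matrix, `B` being the inverse of `A l` -/
noncomputable def compan (l : ℕ) (A : ℕ → Matrix (Fin n) (Fin n) ℍ) (B : Matrix (Fin n) (Fin n) ℍ) :
    Matrix (Fin l × Fin n) (Fin l × Fin n) ℍ := fun p q =>
  if p.1.val + 1 < l then (if q.1.val = p.1.val + 1 ∧ q.2 = p.2 then 1 else 0)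
  else -(B * A q.1.val) p.2 q.2

/-- the block matrix `G`, blocks numbered from `0` -/
noncomputable def gmat (l : ℕ) (A : ℕ → Matrix (Fin n) (Fin n) ℍ) :
    Matrix (Fin l × Fin n) (Fin l × Fin n) ℍ := fun p q =>
  if p.1.val + q.1.val + 1 ≤ l then (-1) ^ p.1.val * A (p.1.val + q.1.val + 1) p.2 q.2 else 0

open Classical in
/-- the matrix `p_z(C)` -/
noncomputable def pmat {ι : Type} [Fintype ι] [DecidableEq ι] (C : Matrix ι ι ℍ) (z : ℍ) :
    Matrix ι ι ℍ :=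
  if z.im = 0 then C - z.re • (1 : Matrix ι ι ℍ)
  else C * C - (2 * z.re) • C + (‖z‖ ^ 2) • (1 : Matrix ι ι ℍ)

/-- `z` is a right eigenvalue of `C` -/
def IsEig {ι : Type} [Fintype ι] (C : Matrix ι ι ℍ) (z : ℍ) : Prop :=
  ∃ v : ι → ℍ, v ≠ 0 ∧ C *ᵥ v = fun i => v i * z

/-- the root subspace of `C` for the class of `z` -/
def Root {ι : Type} [Fintype ι] [DecidableEq ι] (C : Matrix ι ι ℍ) (z : ℍ) : Set (ι → ℍ) :=
  {v | (pmat C z ^ Fintype.card ι) *ᵥ v = 0}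

end Pool.Agent.H.MP_554556_an
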