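import Pool.Agent.H.MP_554556_an.C

set_option autoImplicit false

namespace Pool.Agent.H.MP_554556_an
open Matrix Quaternion

theorem form (φ : ℍ →ₗ[ℝ] ℍ) (h1 : ∀ x y, φ (x * y) = φ y * φ x) (h2 : ∀ x, φ (φ x) = x)
    (h3 : ¬ ∀ x, φ x = star x) (β : ℍ) (hβ : φ β = -β) (hn : ‖β‖ = 1) :
    star β = -β ∧ β * β = -1 ∧ ∀ x, β * φ x = star x * β := by
  have n1 : normSq β = 1 := by rw [normSq_eq_norm_mul_self, hn, one_mul]
  have b0 : β ≠ 0 := fun h => by simp [h] at hn
  have o : φ 1 = 1 := by simpa [h2] using (h1 (φ 1) 1).symm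
  have re : ∀ r : ℝ, φ r = r := fun r => by
    rw [← mul_one (r : ℍ), coe_mul_eq_smul, map_smul, o]
  have s1 : star β = -β := by
    have e1 : φ (β * β) = β * β := by rw [h1, hβ, neg_mul_neg]
    have e2 : β * β = (2 * β.re) • β - 1 := by
      rw [← coe_mul_eq_smul, ← self_add_star', add_mul, star_mul_self, n1]
      simp
    rw [e2, map_sub, map_smul, hβ, o, sub_left_inj, smul_neg, neg_eq_iff_add_eq_zero, ← two_smul ℝ,
      smul_smul, smul_eq_zero] at e1
    exact star_eq_neg.2 (by linarith [e1.resolve_right b0])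
  have s2 : β * β = -1 := by
    have := self_mul_star β
    rw [s1, n1, mul_neg, neg_eq_iff_eq_neg] at this
    simpa using this
  refine ⟨s1, s2, ?_⟩
  have a : ∀ x, x * β = -(β * x) → φ x * β = -(β * φ x) := fun x h => by
    have := congrArg φ h
    rw [map_neg, h1, h1, hβ, neg_mul, mul_neg, neg_neg] at this
    exact this.symm
  have b : ∀ x, x * β = -(β * x) → φ x = x := fun x h => by
    by_contra k
    have k0 : x - φ x ≠ 0 := sub_ne_zero.2 (Ne.symm k)
    have u1 : φ (x - φ x) = -(x - φ x) := by rw [map_sub, h2, neg_sub]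
    have u2 : (x - φ x) * β = -(β * (x - φ x)) := by
      rw [sub_mul, h, a x h, mul_sub]
      abel
    generalize x - φ x = u at k0 u1 u2
    have u3 : φ (β * u) = -(β * u) := by rw [h1, u1, hβ, neg_mul_neg, u2]
    have r0 : β.re = 0 := star_eq_neg.1 s1
    have n2 := n1
    rw [normSq_def', r0] at n2
    have u4 := u2
    simp only [Quaternion.ext_iff] at u4
    simp [r0] at u4
    obtain ⟨c0, c1, c2, c3⟩ := u4
    have r1 : u.re = 0 := by
      linear_combination (β.imI * c1 + β.imJ * c2 + β.imK * c3) / 2 - u.re * n2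
    have n3 : normSq u ≠ 0 := normSq_ne_zero.2 k0
    refine h3 fun y => ?_
    have e : normSq u • y.im = (normSq u * (y * star β).re) • β + (y * star u).re • u +
        (y * star (β * u)).re • (β * u) := by
      ext <;> simp [normSq_def', r0, r1] <;> grind
    have e' := congrArg φ e
    rw [map_add, map_add, map_smul, map_smul, map_smul, map_smul, hβ, u1, u3, smul_neg, smul_neg,
      smul_neg, ← neg_add, ← neg_add, ← e, ← smul_neg] at e'
    rw [← re_add_im y, map_add, re, smul_right_injective _ n3 e', star_add, star_coe, star_im]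
  intro x
  have c : (x - x.re - (x * star β).re • β) * β = -(β * (x - x.re - (x * star β).re • β)) := by
    have r0 : β.re = 0 := star_eq_neg.1 s1
    rw [normSq_def', r0] at n1
    ext <;> simp [r0] <;> grind
  have d := b _ c
  rw [map_sub, map_sub, map_smul, re, hβ, sub_eq_iff_eq_add, sub_eq_iff_eq_add] at d
  have r0 : β.re = 0 := star_eq_neg.1 s1
  rw [d]
  rw [normSq_def', r0] at n1
  ext <;> simp [r0] <;> grind

theorem exists_beta (φ : ℍ →ₗ[ℝ] ℍ) (h1 : ∀ x y, φ (x * y) = φ y * φ x) (h2 : ∀ x, φ (φ x) = x)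
    (h3 : ¬ ∀ x, φ x = star x) :
    ∃ β : ℍ, ‖β‖ = 1 ∧ star β = -β ∧ β * β = -1 ∧ ∀ x, β * φ x = star x * β := by
  have : ∃ x, x - φ x ≠ 0 := by
    by_contra h
    push Not at h
    have e : ∀ x, φ x = x := fun x => (sub_eq_zero.mp (h x)).symm
    obtain ⟨a, a0, a1, a2, a3⟩ := exists_q 0 1 0 0
    obtain ⟨b, b0, b1, b2, b3⟩ := exists_q 0 0 1 0
    have := h1 a b
    rw [e, e, e] at this
    have := congrArg QuaternionAlgebra.imK this
    simp [a0, a1, a2, a3, b0, b1, b2, b3] at this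
    linarith
  obtain ⟨x, hx⟩ := this
  have hn : ‖‖x - φ x‖⁻¹ • (x - φ x)‖ = 1 := norm_smul_inv_norm hx
  exact ⟨_, hn, form φ h1 h2 h3 _ (by rw [map_smul, map_sub, h2, ← smul_neg, neg_sub]) hn⟩

end Pool.Agent.H.MP_554556_an
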